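import Pool.Agent.Helper54.FIN.Conv
import Pool.Agent.Helper54.FIN.ClassTwo

/-!
# The purely wild inertia conjecture (case r = 1): alternating and classical groups, p > 3

`Realizable k G P x` (file Pool/Agent/Helper92/PW/DefsReal.lean) is the conclusion of the frozen statement
S00209 for the family `P` of subgroups and the family `x` of points; here it is used with one point.

`HF F V` (file Pool/Agent/Helper54/CL/Defs.lean): a nondegenerate form `B` on the vector space `V`, `σ`-linear in the
first and linear in the second variable, `σ² = 1`, `B y x = ε σ (B x y)`, `ε² = 1`; so it is alternating, (skew-)hermitian or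
symmetric bilinear (`IsO`).  `h.GG l` is the group generated by the isometries whose order is a power of `l`; for `F` finite of
characteristic `l > 3` this is `Sp(V)`, `SU(V)` or `Ω(V)`.  `h.Ok` (file Pool/Agent/Helper54/CL/Quasi.lean): there is an isotropic
vector, and the dimension is `3` or at least `5` if the form is symmetric.

`Win p m F` (file Pool/Agent/Helper54/FIN/Class.lean): `m ≥ 2`, `F` is a field with at least 4 elements,
and `F` has characteristic `p`, or the following two hold: `m` is not the order of `|F|` modulo `p`, and
not (`m = p` and `p` divides `|F| - 1`).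

`ClassX p X`, `ClassS p S`, `ParCond p l h`: file Pool/Agent/Helper54/FIN/ClassTwo.lean.
-/

set_option autoImplicit false
open Pool.Agent.Helper54.PW Pool.Agent.Helper54.FIN

namespace Pool.Agent.Results.MP_63a9db_ag.ClassicalGroups

/-- Let `p ≥ 5`, `R` a normal subgroup of the finite group `G` such that every nonabelian composition factor `S`
of `R` of order divisible by `p` satisfies `ClassS p S` (alternating, or classical in characteristic `p`, or one of the other
classical groups if its automorphisms of order `p` are inner), and such that `G/R` is a quotient of a finite product of groups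
`X i` with `ClassX p (X i)`.  Then `G` with inertia group `P` over the one branch point `x` is realizable,
for every `p`-subgroup `P` with normal closure `G`. -/
theorem result (p : ℕ) (hp : p.Prime) (hp5 : 5 ≤ p) (k : Type) [Field k] [IsAlgClosed k] [CharP k p]
    (G : Type) [Group G] [Finite G] (R : Subgroup G) [R.Normal]
    (hR : ∀ (A B : Subgroup G) [(A.subgroupOf B).Normal], A ≤ B → B ≤ R → B.IsSubnormal →
      IsSimpleGroup (B ⧸ A.subgroupOf B) → (∃ a b : B ⧸ A.subgroupOf B, a * b ≠ b * a) →
      p ∣ Nat.card (B ⧸ A.subgroupOf B) → ClassS p (B ⧸ A.subgroupOf B))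
    (ι : Type) [Finite ι] (X : ι → Type) [∀ i, Group (X i)] [∀ i, Finite (X i)]
    (hX : ∀ i, ClassX p (X i)) (π : (∀ i, X i) →* G ⧸ R) (hπ : Function.Surjective π)
    (P : Subgroup G) (hP : IsPGroup p P) (hgen : Subgroup.normalClosure (P : Set G) = ⊤)
    (x : ValuationSubring (RatFunc k)) (hx : x ≠ ⊤)
    (hxk : ∀ c : k, algebraMap k (RatFunc k) c ∈ x) :
    Realizable k G (fun _ : Fin 1 => P) (fun _ => x) := by
  haveI : Fact p.Prime := ⟨hp⟩
  exact (real_iff P x hx hxk).2 (realAct_class2 hp5 X hX R hR π hπ hP hgen)

end Pool.Agent.Results.MP_63a9db_ag.ClassicalGroups
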