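import Pool.Agent.Helper54.FIN.Conv

/-!
# The purely wild inertia conjecture (case r = 1): reduction to almost simple groups and inertia of order p

`Realizable k G P x` (file Pool/Agent/Helper92/PW/DefsReal.lean) is the conclusion of the frozen statement
S00209 for the family `P` of subgroups and the family `x` of points; here it is used with one point.

Proof: a join theorem for covers with inertia groups inside a common `p`-group (formal patching), the
solution of embedding problems with kernels of order prime to `p`, a generation argument for finite groups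
with a nonabelian minimal normal subgroup of order divisible by `p`, and induction.
-/

set_option autoImplicit false
open Pool.Agent.Helper54.PW Pool.Agent.Helper54.RT

namespace Pool.Agent.Results.MP_63a9db_ag.Reduction

/-- For every nonabelian composition factor `B/A` of `R` of order divisible by `p` (`B` is subnormal in `G`
and `B/A` is simple) and every automorphism `α` of `B/A` of order `p` which is induced by conjugation with an
element `y` of `P` (which then normalises `B`): the group generated by the inner automorphisms of `B/A` and by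
`α` has a cover of the line, unramified away from `x`, with inertia group `⟨α⟩` above `x`. -/
def FactorHyp (p : ℕ) (k : Type) [Field k] (x : ValuationSubring (RatFunc k)) {G : Type} [Group G]
    (P R : Subgroup G) : Prop :=
  ∀ (A B : Subgroup G) [(A.subgroupOf B).Normal], A ≤ B → B ≤ R → B.IsSubnormal →
    IsSimpleGroup (B ⧸ A.subgroupOf B) → (∃ a b : B ⧸ A.subgroupOf B, a * b ≠ b * a) →
    p ∣ Nat.card (B ⧸ A.subgroupOf B) → ∀ y ∈ P, ∀ α : MulAut (B ⧸ A.subgroupOf B),
      orderOf α = p →
      (∀ (b : G) (hb : b ∈ B), ∃ hb' : y * b * y⁻¹ ∈ B,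
        α (QuotientGroup.mk ⟨b, hb⟩) = QuotientGroup.mk ⟨y * b * y⁻¹, hb'⟩) →
      Realizable k
        ↥((MulAut.conj : (B ⧸ A.subgroupOf B) →* MulAut (B ⧸ A.subgroupOf B)).range ⊔
          Subgroup.zpowers α)
        (fun _ : Fin 1 => (Subgroup.zpowers α).subgroupOf
          ((MulAut.conj : (B ⧸ A.subgroupOf B) →* MulAut (B ⧸ A.subgroupOf B)).range ⊔
            Subgroup.zpowers α))
        (fun _ => x)

theorem hypW_of_factorHyp {p : ℕ} [Fact p.Prime] {k : Type} [Field k] [IsAlgClosed k]
    (x : ValuationSubring (RatFunc k)) (hx : x ≠ ⊤)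
    (hxk : ∀ c : k, algebraMap k (RatFunc k) c ∈ x) {G : Type} [Group G] [Finite G]
    (P R : Subgroup G) (h : FactorHyp p k x P R) : HypW p k P R := by
  intro A B _ hAB hBR hB hS hna hpd y hy α hα hind
  haveI : Finite (MulAut (B ⧸ A.subgroupOf B)) :=
    Finite.of_injective (fun e : MulAut (B ⧸ A.subgroupOf B) => (e : (B ⧸ A.subgroupOf B) →
      (B ⧸ A.subgroupOf B))) (fun e f hef => MulEquiv.ext (congrFun hef))
  exact (Pool.Agent.Helper54.FIN.real_iff _ x hx hxk).1 (h A B hAB hBR hB hS hna hpd y hy α hα hind)

/-- Let `p > 2`, `P` a `p`-subgroup of the finite group `G` with normal closure `G` and `R` a normal subgroup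
of `G` which satisfies `FactorHyp`.  Then `G` with inertia group `P` over the one branch point `x` is
realizable iff `G/R` with `PR/R` is; for `R = G` it is realizable. -/
theorem result (p : ℕ) (hp : p.Prime) (hp2 : p ≠ 2) (k : Type) [Field k] [IsAlgClosed k] [CharP k p]
    (G : Type) [Group G] [Finite G] (P : Subgroup G) (hP : IsPGroup p P)
    (hgen : Subgroup.normalClosure (P : Set G) = ⊤)
    (x : ValuationSubring (RatFunc k)) (hx : x ≠ ⊤)
    (hxk : ∀ c : k, algebraMap k (RatFunc k) c ∈ x)
    (R : Subgroup G) [R.Normal] (hR : FactorHyp p k x P R) :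
    (Realizable k G (fun _ : Fin 1 => P) (fun _ => x) ↔
      Realizable k (G ⧸ R) (fun _ : Fin 1 => P.map (QuotientGroup.mk' R)) (fun _ => x)) ∧
    (R = ⊤ → Realizable k G (fun _ : Fin 1 => P) (fun _ => x)) := by
  haveI : Fact p.Prime := ⟨hp⟩
  have hp3 : 3 ≤ p := by
    have := hp.two_le
    omega
  have h1 : Realizable k G (fun _ : Fin 1 => P) (fun _ => x) ↔
      Realizable k (G ⧸ R) (fun _ : Fin 1 => P.map (QuotientGroup.mk' R)) (fun _ => x) := by
    rw [Pool.Agent.Helper54.FIN.real_iff P x hx hxk, Pool.Agent.Helper54.FIN.real_iff _ x hx hxk]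
    exact reduction_iff hp3 R hP hgen (hypW_of_factorHyp x hx hxk P R hR)
  refine ⟨h1, fun hRt => ?_⟩
  rw [h1]
  subst hRt
  have hsub : Subsingleton (G ⧸ (⊤ : Subgroup G)) := QuotientGroup.subsingleton_quotient_top
  exact Pool.Agent.Helper54.SR.realizable_subsingleton _ _ x hx hxk

end Pool.Agent.Results.MP_63a9db_ag.Reduction
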